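import Mathlib
import Pool.Agent.R59.SP.Defs

/-!
BONF of MP_dc5c84_pr.
-/

set_option autoImplicit false

noncomputable section

namespace R59.SP.BonfP

open Filter Topology Finset

/-- elementary symmetric function -/
def e (n : ℕ) (f : ℤ → ℝ) (s : Finset ℤ) : ℝ := ∑ t ∈ powersetCard n s, ∏ x ∈ t, f x

theorem e_zero (f : ℤ → ℝ) (s : Finset ℤ) : e 0 f s = 1 := by simp [e]

theorem e_succ (n : ℕ) (f : ℤ → ℝ) (s : Finset ℤ) (y : ℤ) (hy : y ∉ s) :
    e (n + 1) f (insert y s) = e (n + 1) f s + f y * e n f s := by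
  unfold e
  rw [Finset.powersetCard_succ_insert hy, Finset.sum_union, Finset.sum_image, Finset.mul_sum]
  · congr 1
    refine Finset.sum_congr rfl fun t ht => ?_
    rw [Finset.prod_insert]
    intro hyt
    exact hy ((Finset.mem_powersetCard.1 ht).1 hyt)
  · intro t ht t' ht' heq
    have h1 : y ∉ t := fun h => hy ((Finset.mem_powersetCard.1 ht).1 h)
    have h2 : y ∉ t' := fun h => hy ((Finset.mem_powersetCard.1 ht').1 h)
    have h3 := congrArg (fun z => Finset.erase z y) heq
    simpa [Finset.erase_insert h1, Finset.erase_insert h2] using h3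
  · rw [Finset.disjoint_left]
    intro t ht ht'
    obtain ⟨t', _, rfl⟩ := Finset.mem_image.1 ht'
    exact hy ((Finset.mem_powersetCard.1 ht).1 (Finset.mem_insert_self _ _))

/-- truncated alternating sums -/
def T (k : ℕ) (f : ℤ → ℝ) (s : Finset ℤ) : ℝ := ∑ n ∈ range (k + 1), (-1 : ℝ) ^ n * e n f s

theorem T_zero (f : ℤ → ℝ) (s : Finset ℤ) : T 0 f s = 1 := by simp [T, e_zero]

theorem T_succ (k : ℕ) (f : ℤ → ℝ) (s : Finset ℤ) (y : ℤ) (hy : y ∉ s) :
    T (k + 1) f (insert y s) = T (k + 1) f s - f y * T k f s := by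
  unfold T
  rw [Finset.sum_range_succ' _ (k + 1), Finset.sum_range_succ' _ (k + 1), Finset.mul_sum]
  simp only [e_zero, pow_zero, mul_one]
  rw [add_sub_right_comm, ← Finset.sum_sub_distrib]
  congr 1
  refine Finset.sum_congr rfl fun n _ => ?_
  rw [e_succ n f s y hy, pow_succ]
  ring

theorem bonf (f : ℤ → ℝ) (s : Finset ℤ) (h0 : ∀ j, 0 ≤ f j) (h1 : ∀ j, f j ≤ 1) :
    ∀ k : ℕ, 0 ≤ (-1 : ℝ) ^ k * (T k f s - ∏ j ∈ s, (1 - f j)) := by
  induction s using Finset.induction_on with
  | empty =>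
    intro k
    have h2 : T k f ∅ = 1 := by
      unfold T
      rw [Finset.sum_range_succ']
      have h3 : ∀ n, e (n + 1) f ∅ = 0 := by
        intro n
        unfold e
        rw [Finset.powersetCard_eq_empty.2 (by simp)]
        simp
      simp [h3, e_zero]
    simp [h2]
  | insert y s hy ih =>
    intro k
    rw [Finset.prod_insert hy]
    cases k with
    | zero =>
      rw [T_zero]
      have h2 : (1 - f y) * ∏ j ∈ s, (1 - f j) ≤ 1 := by
        apply mul_le_one₀ (by linarith [h0 y])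
        · exact Finset.prod_nonneg fun j _ => by linarith [h1 j]
        · exact Finset.prod_le_one (fun j _ => by linarith [h1 j]) fun j _ => by linarith [h0 j]
      simpa using h2
    | succ k =>
      rw [T_succ k f s y hy]
      have h2 := ih (k + 1)
      have h3 := mul_nonneg (h0 y) (ih k)
      have h4 : (-1 : ℝ) ^ (k + 1) * (T (k + 1) f s - f y * T k f s -
          (1 - f y) * ∏ j ∈ s, (1 - f j)) =
          (-1 : ℝ) ^ (k + 1) * (T (k + 1) f s - ∏ j ∈ s, (1 - f j)) +
          f y * ((-1 : ℝ) ^ k * (T k f s - ∏ j ∈ s, (1 - f j))) := by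
        rw [pow_succ]; ring
      rw [h4]
      linarith

/-- sums over embeddings into a finite set -/
theorem sum_emb (n : ℕ) (s : Finset ℤ) (f : ℤ → ℝ) :
    ∑ j : Fin n ↪ s, ∏ i, f (j i) = (n.factorial : ℝ) * e n f s := by
  classical
  let g : (Fin n ↪ s) → Finset ℤ := fun j => univ.map (j.trans (Function.Embedding.subtype _))
  have hg : ∀ j ∈ (univ : Finset (Fin n ↪ s)), g j ∈ powersetCard n s := by
    intro j _
    rw [Finset.mem_powersetCard]
    refine ⟨?_, by simp [g]⟩
    intro x hx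
    simp only [g, Finset.mem_map, Finset.mem_univ, true_and] at hx
    obtain ⟨i, rfl⟩ := hx
    exact (j i).2
  rw [← Finset.sum_fiberwise_of_maps_to hg]
  unfold e
  rw [Finset.mul_sum]
  refine Finset.sum_congr rfl fun t ht => ?_
  rw [Finset.mem_powersetCard] at ht
  have h1 : ∀ j ∈ univ.filter (fun j : Fin n ↪ s => g j = t), ∏ i, f (j i) = ∏ x ∈ t, f x := by
    intro j hj
    rw [Finset.mem_filter] at hj
    rw [← hj.2]
    simp [g, Finset.prod_map]
  rw [Finset.sum_congr rfl h1, Finset.sum_const, nsmul_eq_mul]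
  congr 2
  -- the number of embeddings with image t
  have h2 : (univ.filter (fun j : Fin n ↪ s => g j = t)).card =
      Fintype.card {j : Fin n ↪ s // g j = t} := by
    rw [Fintype.card_subtype]
  rw [h2]
  let E : {j : Fin n ↪ s // g j = t} ≃ (Fin n ≃ t) :=
    { toFun := fun j => Equiv.ofBijective
        (fun i => (⟨(j.1 i : ℤ), by
          have h3 : ((j.1 i : s) : ℤ) ∈ g j.1 := by
            simp only [g, Finset.mem_map, Finset.mem_univ, true_and]
            exact ⟨i, rfl⟩
          exact (congrArg (fun z => ((j.1 i : s) : ℤ) ∈ z) j.2).mp h3⟩ : t)) (by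
          constructor
          · intro a b hab
            have h3 : ((j.1 a : s) : ℤ) = (j.1 b : s) := congrArg (fun z : t => (z : ℤ)) hab
            exact j.1.injective (Subtype.ext h3)
          · rintro ⟨x, hx⟩
            have h3 := hx
            rw [← j.2] at h3
            simp only [g, Finset.mem_map, Finset.mem_univ, true_and] at h3
            obtain ⟨i, hi⟩ := h3
            exact ⟨i, Subtype.ext hi⟩)
      invFun := fun q => ⟨⟨fun i => ⟨(q i : ℤ), ht.1 (q i).2⟩, by
          intro a b hab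
          have h3 : ((q a : t) : ℤ) = (q b : t) :=
            congrArg (fun z : s => (z : ℤ)) hab
          exact q.injective (Subtype.ext h3)⟩, by
          ext x
          simp only [g, Finset.mem_map, Finset.mem_univ, true_and]
          constructor
          · rintro ⟨i, rfl⟩
            exact (q i).2
          · intro hx
            obtain ⟨i, hi⟩ := q.surjective ⟨x, hx⟩
            exact ⟨i, congrArg Subtype.val hi⟩⟩
      left_inv := by
        intro j
        ext i
        rfl
      right_inv := by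
        intro q
        ext i
        rfl }
  rw [Fintype.card_congr E]
  rw [Fintype.card_equiv (Fintype.equivOfCardEq (by simp [ht.2]))]
  simp

/-- the finite set of embeddings with values in `s` -/
def TT (n : ℕ) (s : Finset ℤ) : Finset (Fin n ↪ ℤ) := by
  classical
  exact (univ : Finset (Fin n ↪ s)).image (fun j => j.trans (Function.Embedding.subtype _))

theorem mem_TT (n : ℕ) (s : Finset ℤ) (j : Fin n ↪ ℤ) : j ∈ TT n s ↔ ∀ i, j i ∈ s := by
  classical
  unfold TT
  simp only [Finset.mem_image, Finset.mem_univ, true_and]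
  constructor
  · rintro ⟨q, rfl⟩ i
    exact (q i).2
  · intro h
    refine ⟨⟨fun i => ⟨j i, h i⟩, fun a b hab => j.injective (congrArg Subtype.val hab)⟩, ?_⟩
    ext i
    rfl

theorem sum_TT (n : ℕ) (s : Finset ℤ) (f : ℤ → ℝ) :
    ∑ j ∈ TT n s, ∏ i, f (j i) = (n.factorial : ℝ) * e n f s := by
  classical
  rw [← sum_emb, TT, Finset.sum_image]
  · rfl
  · intro a _ b _ hab
    ext i
    exact congrArg (fun q : Fin n ↪ ℤ => q i) hab

theorem summ (n : ℕ) (f : ℤ → ℝ) (h0 : ∀ j, 0 ≤ f j) (hf : Summable f) :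
    Summable (fun j : Fin n ↪ ℤ => ∏ i, f (j i)) := by
  classical
  refine summable_of_sum_le (fun j => Finset.prod_nonneg fun i _ => h0 _)
    (c := (∑' j, f j) ^ n) ?_
  intro A
  let s : Finset ℤ := A.biUnion fun j => univ.image j
  have h1 : A ⊆ TT n s := by
    intro j hj
    rw [mem_TT]
    intro i
    simp only [s, Finset.mem_biUnion, Finset.mem_image, Finset.mem_univ, true_and]
    exact ⟨j, hj, i, rfl⟩
  have h2 : ∑ j ∈ TT n s, ∏ i, f (j i) ≤
      ∑ j ∈ Fintype.piFinset (fun _ : Fin n => s), ∏ i, f (j i) := by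
    have h3 : ∑ j ∈ TT n s, ∏ i, f (j i) =
        ∑ j ∈ (TT n s).map ⟨fun j : Fin n ↪ ℤ => (j : Fin n → ℤ), DFunLike.coe_injective⟩,
          ∏ i, f (j i) := by
      rw [Finset.sum_map]; rfl
    rw [h3]
    refine Finset.sum_le_sum_of_subset_of_nonneg ?_
      fun j _ _ => Finset.prod_nonneg fun i _ => h0 _
    intro j hj
    rw [Finset.mem_map] at hj
    obtain ⟨q, hq, rfl⟩ := hj
    rw [Fintype.mem_piFinset]
    exact (mem_TT n s q).1 hq
  calc ∑ j ∈ A, ∏ i, f (j i) ≤ ∑ j ∈ TT n s, ∏ i, f (j i) :=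
        Finset.sum_le_sum_of_subset_of_nonneg h1
          fun j _ _ => Finset.prod_nonneg fun i _ => h0 _
    _ ≤ _ := h2
    _ = (∑ j ∈ s, f j) ^ n := by
        rw [← Finset.prod_univ_sum]; simp
    _ ≤ (∑' j, f j) ^ n := by
        exact pow_le_pow_left₀ (Finset.sum_nonneg fun j _ => h0 j)
          (hf.sum_le_tsum s fun j _ => h0 j) n

theorem lim_e (n : ℕ) (f : ℤ → ℝ) (h0 : ∀ j, 0 ≤ f j) (hf : Summable f) :
    Tendsto (fun s : Finset ℤ => e n f s) atTop
      (𝓝 ((1 / (n.factorial : ℝ)) * ∑' j : Fin n ↪ ℤ, ∏ i, f (j i))) := by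
  classical
  have h1 : Tendsto (TT n) atTop atTop := by
    apply tendsto_atTop_finset_of_monotone
    · intro s s' hss j hj
      rw [mem_TT] at hj ⊢
      exact fun i => hss (hj i)
    · intro j
      refine ⟨univ.image j, ?_⟩
      rw [mem_TT]
      intro i
      exact Finset.mem_image_of_mem _ (Finset.mem_univ i)
  have h2 := ((summ n f h0 hf).hasSum.comp h1).const_mul (1 / (n.factorial : ℝ))
  refine h2.congr fun s => ?_
  show 1 / (n.factorial : ℝ) * ∑ j ∈ TT n s, ∏ i, f (j i) = e n f s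
  rw [sum_TT]
  have : (n.factorial : ℝ) ≠ 0 := by positivity
  field_simp

end R59.SP.BonfP

open R59.SP.BonfP Filter Topology Finset in
theorem R59.SP.BonfP.bonf_main : R59.SP.S_BONF := by
  intro u v w h hw0 hw1 hh0 hh1 hv hsw hsh hj m
  obtain ⟨j0, hj0⟩ := hj
  have hv0 : ∀ x, 0 ≤ v x := by
    intro x
    have h1 := hv x
    have h2 := mul_nonneg (hw0 x) (show 0 ≤ 1 - h x by linarith [hh1 x])
    nlinarith [hh0 x]
  have hv1 : ∀ x, v x ≤ 1 := by
    intro x
    have h1 := hv x
    have h2 := mul_nonneg (show 0 ≤ 1 - w x by linarith [hw1 x])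
      (show 0 ≤ 1 - h x by linarith [hh1 x])
    linarith
  have hvs : Summable (fun j => v (u j)) := by
    refine Summable.of_nonneg_of_le (fun j => hv0 _) (fun j => ?_) (hsw.add hsh)
    have h1 := hv (u j)
    have h2 := mul_nonneg (hw0 (u j)) (hh0 (u j))
    nlinarith
  have key : ∀ s : Finset ℤ, j0 ∈ s →
      T (2 * m + 1) (fun j => v (u j)) s ≤ 1 / 2 * T (2 * m) (fun j => w (u j)) s := by
    intro s hs
    have h1 := bonf (fun j => v (u j)) s (fun j => hv0 _) (fun j => hv1 _) (2 * m + 1)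
    have h2 := bonf (fun j => w (u j)) s (fun j => hw0 _) (fun j => hw1 _) (2 * m)
    have h3 : (-1 : ℝ) ^ (2 * m) = 1 := by rw [pow_mul]; simp
    have h4 : (-1 : ℝ) ^ (2 * m + 1) = -1 := by rw [pow_succ, h3]; simp
    rw [h4] at h1
    rw [h3] at h2
    have h5 : ∏ j ∈ s, (1 - v (u j)) = (∏ j ∈ s, (1 - w (u j))) * ∏ j ∈ s, (1 - h (u j)) := by
      rw [← Finset.prod_mul_distrib]
      exact Finset.prod_congr rfl fun j _ => hv _
    have h6 : ∏ j ∈ s, (1 - h (u j)) ≤ 1 / 2 := by
      rw [← Finset.mul_prod_erase s _ hs]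
      have h7 : ∏ j ∈ s.erase j0, (1 - h (u j)) ≤ 1 :=
        Finset.prod_le_one (fun j _ => by linarith [hh1 (u j)]) fun j _ => by linarith [hh0 (u j)]
      have h8 : 0 ≤ ∏ j ∈ s.erase j0, (1 - h (u j)) :=
        Finset.prod_nonneg fun j _ => by linarith [hh1 (u j)]
      nlinarith [hh1 (u j0)]
    have h9 : 0 ≤ ∏ j ∈ s, (1 - w (u j)) :=
      Finset.prod_nonneg fun j _ => by linarith [hw1 (u j)]
    have h10 := mul_le_mul_of_nonneg_left h6 h9
    linarith
  have hlim : ∀ (f : ℤ → ℝ), (∀ j, 0 ≤ f j) → Summable f → ∀ k : ℕ,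
      Tendsto (fun s : Finset ℤ => T k f s) atTop
        (𝓝 (∑ n ∈ range (k + 1), ((-1 : ℝ) ^ n / (n.factorial : ℝ)) *
          ∑' j : Fin n ↪ ℤ, ∏ i, f (j i))) := by
    intro f hf0 hfs k
    unfold T
    refine tendsto_finset_sum _ fun n _ => ?_
    have h1 := (lim_e n f hf0 hfs).const_mul ((-1 : ℝ) ^ n)
    have h2 : (-1 : ℝ) ^ n / (n.factorial : ℝ) * ∑' j : Fin n ↪ ℤ, ∏ i, f (j i) =
        (-1 : ℝ) ^ n * (1 / (n.factorial : ℝ) * ∑' j : Fin n ↪ ℤ, ∏ i, f (j i)) := by ring
    rw [h2]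
    exact h1
  have h1 := hlim _ (fun j => hv0 (u j)) hvs (2 * m + 1)
  have h2 := (hlim _ (fun j => hw0 (u j)) hsw (2 * m)).const_mul (1 / 2)
  refine le_of_tendsto_of_tendsto h1 h2 ?_
  filter_upwards [eventually_ge_atTop ({j0} : Finset ℤ)] with s hs
  exact key s (hs (Finset.mem_singleton_self j0))
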