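import Mathlib
import Pool.Agent.R59.SP.Defs

/-!
INT of MP_dc5c84_pr.
-/

set_option autoImplicit false

noncomputable section

namespace R59.SP.IntP

open MeasureTheory Filter Topology Finset
open scoped SchwartzMap ComplexConjugate

theorem schwartz_bdd (f : 𝓢(ℝ, ℂ)) : ∃ C : ℝ, ∀ x, ‖f x‖ ≤ C := by
  obtain ⟨C, hC⟩ := f.decay 0 0
  refine ⟨C, fun x => ?_⟩
  have := hC.2 x
  simpa using this

theorem int_one (φ : ℝ → ℝ) (hi : Integrable φ) (f g : 𝓢(ℝ, ℂ)) :
    Integrable (fun t : ℝ => (φ t : ℂ) * (f t * conj (g t))) := by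
  obtain ⟨C, hC⟩ := schwartz_bdd f
  obtain ⟨D, hD⟩ := schwartz_bdd g
  have h1 : Continuous (fun t : ℝ => f t * conj (g t)) :=
    f.continuous.mul (Complex.continuous_conj.comp g.continuous)
  refine hi.ofReal.mul_bdd (c := C * D) h1.aestronglyMeasurable ?_
  filter_upwards with t
  rw [norm_mul, RCLike.norm_conj]
  exact mul_le_mul (hC t) (hD t) (norm_nonneg _) ((norm_nonneg _).trans (hC t))

theorem int_main : R59.SP.S_INT := by
  intro N ψ φ hc hi n
  set G : Matrix (Fin N) (Fin N) ℂ :=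
    Matrix.of fun p q => ∫ t : ℝ, (φ t : ℂ) * (ψ q t * conj (ψ p t)) with hG
  have h1 : ∀ x : Fin n → ℝ, ((∏ i, φ (x i) : ℝ) : ℂ) *
      Matrix.det (Matrix.of fun i k => ∑ a, ψ a (x i) * conj (ψ a (x k))) =
      ∑ σ : Equiv.Perm (Fin n), ∑ a : Fin n → Fin N, ((Equiv.Perm.sign σ : ℤ) : ℂ) *
        ∏ i, ((φ (x i) : ℂ) * (ψ (a (σ⁻¹ i)) (x i) * conj (ψ (a i) (x i)))) := by
    intro x
    rw [Matrix.det_apply', Finset.mul_sum]
    refine Finset.sum_congr rfl fun σ _ => ?_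
    simp only [Matrix.of_apply]
    rw [Finset.prod_univ_sum]
    rw [Fintype.piFinset_univ, Finset.mul_sum, Finset.mul_sum]
    refine Finset.sum_congr rfl fun a _ => ?_
    rw [Finset.prod_mul_distrib, Finset.prod_mul_distrib, Finset.prod_mul_distrib]
    have h2 : ∏ i, ψ (a (σ⁻¹ i)) (x i) = ∏ i, ψ (a i) (x (σ i)) := by
      rw [← Equiv.prod_comp σ]
      refine Finset.prod_congr rfl fun i _ => ?_
      simp
    rw [h2]
    push_cast
    ring
  simp_rw [h1]
  have h3 : ∀ (σ : Equiv.Perm (Fin n)) (a : Fin n → Fin N), Integrable (fun x : Fin n → ℝ =>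
      ((Equiv.Perm.sign σ : ℤ) : ℂ) *
        ∏ i, ((φ (x i) : ℂ) * (ψ (a (σ⁻¹ i)) (x i) * conj (ψ (a i) (x i))))) := by
    intro σ a
    refine Integrable.const_mul ?_ _
    exact Integrable.fintype_prod (f := fun i t => (φ t : ℂ) * (ψ (a (σ⁻¹ i)) t * conj (ψ (a i) t)))
      fun i => int_one φ hi _ _
  rw [integral_finset_sum _ fun σ _ => integrable_finset_sum _ fun a _ => h3 σ a]
  simp_rw [integral_finset_sum _ fun a _ => h3 _ a]
  rw [Finset.sum_comm]
  refine Finset.sum_congr rfl fun a _ => ?_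
  rw [Matrix.det_apply']
  refine Finset.sum_congr rfl fun σ _ => ?_
  rw [integral_const_mul]
  congr 1
  rw [integral_fintype_prod_volume_eq_prod
    (f := fun i t => (φ t : ℂ) * (ψ (a (σ⁻¹ i)) t * conj (ψ (a i) t)))]
  rw [← Equiv.prod_comp σ]
  refine Finset.prod_congr rfl fun i _ => ?_
  simp [hG]

end R59.SP.IntP
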