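import Mathlib
import Pool.Agent.R59.SP.Defs

/-!
LIM of MP_dc5c84_pr.
-/

set_option autoImplicit false

noncomputable section

namespace R59.SP.LimP

open MeasureTheory Filter Topology Finset
open scoped SchwartzMap ComplexConjugate ComplexOrder

/-- the kernel matrix -/
def KM {N : ℕ} (ψ : Fin N → 𝓢(ℝ, ℂ)) {n : ℕ} (x : Fin n → ℝ) : Matrix (Fin n) (Fin n) ℂ :=
  Matrix.of fun i k => ∑ a, ψ a (x i) * conj (ψ a (x k))

theorem KM_psd {N : ℕ} (ψ : Fin N → 𝓢(ℝ, ℂ)) {n : ℕ} (x : Fin n → ℝ) :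
    (KM ψ x).PosSemidef := by
  have h1 : KM ψ x = (Matrix.of fun (i : Fin n) (a : Fin N) => ψ a (x i)) *
      (Matrix.of fun (i : Fin n) (a : Fin N) => ψ a (x i)).conjTranspose := by
    ext i k
    simp [KM, Matrix.mul_apply]
  rw [h1]
  exact Matrix.posSemidef_self_mul_conjTranspose _

theorem KM_det (h3 : R59.SP.S_LA3) {N : ℕ} (ψ : Fin N → 𝓢(ℝ, ℂ))
    (hb : ∀ x : ℝ, ∑ a, ‖ψ a x‖ ^ 2 ≤ 1) {n : ℕ} (x : Fin n → ℝ) : ‖(KM ψ x).det‖ ≤ 1 := by
  obtain ⟨h4, h5, h6⟩ := h3 n (KM ψ x) (KM_psd ψ x) (fun i => by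
    have h7 : (KM ψ x) i i = ((∑ a, ‖ψ a (x i)‖ ^ 2 : ℝ) : ℂ) := by
      simp only [KM, Matrix.of_apply]
      push_cast
      refine Finset.sum_congr rfl fun a _ => ?_
      rw [Complex.mul_conj, Complex.normSq_eq_norm_sq]
      push_cast
      rfl
    rw [h7, Complex.ofReal_re]
    exact hb _)
  have h8 : (KM ψ x).det = (((KM ψ x).det).re : ℂ) := by
    apply Complex.ext
    · simp
    · simp [h6]
  rw [h8, Complex.norm_real, Real.norm_eq_abs, abs_of_nonneg h4]
  exact h5

theorem KM_cont {N : ℕ} (ψ : Fin N → 𝓢(ℝ, ℂ)) (n : ℕ) :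
    Continuous (fun x : Fin n → ℝ => (KM ψ x).det) := by
  apply Continuous.matrix_det
  refine continuous_matrix fun i k => ?_
  simp only [KM, Matrix.of_apply]
  refine continuous_finset_sum _ fun a _ => ?_
  exact ((ψ a).continuous.comp (continuous_apply i)).mul
    (Complex.continuous_conj.comp ((ψ a).continuous.comp (continuous_apply k)))

theorem lim (hI : R59.SP.S_INT) (h3 : R59.SP.S_LA3) (h4 : R59.SP.S_LA4) : R59.SP.S_LIM := by
  intro d ψ hb hlim φ hc h0 hi
  set c : ℝ := ∫ t, φ t with hcdef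
  have hc0 : 0 ≤ c := integral_nonneg h0
  set A : (N : ℕ) → Matrix (Fin (d N)) (Fin (d N)) ℂ := fun N =>
    Matrix.of fun p q : Fin (d N) => ∫ t : ℝ, (φ t : ℂ) * (ψ N q t * conj (ψ N p t)) with hA
  set J : ℕ → ℕ → ℂ := fun N n => ∑ a : Fin n → Fin (d N), ((A N).submatrix a a).det with hJ
  have hJ1 : ∀ N n, ∫ x : Fin n → ℝ, ((∏ i, φ (x i) : ℝ) : ℂ) * (KM (ψ N) x).det = J N n := by
    intro N n
    exact hI (d N) (ψ N) φ hc hi n
  -- the product of the densities
  have hprod : ∀ n : ℕ, Integrable (fun x : Fin n → ℝ => ∏ i, φ (x i)) := fun n =>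
    Integrable.fintype_prod (f := fun _ t => φ t) fun _ => hi
  have hprodint : ∀ n : ℕ, ∫ x : Fin n → ℝ, ∏ i, φ (x i) = c ^ n := by
    intro n
    rw [integral_fintype_prod_volume_eq_prod (f := fun _ t => φ t)]
    simp [hcdef]
  have hnonneg : ∀ (n : ℕ) (x : Fin n → ℝ), 0 ≤ ∏ i, φ (x i) := fun n x =>
    Finset.prod_nonneg fun i _ => h0 _
  have hbound : ∀ N n (x : Fin n → ℝ),
      ‖((∏ i, φ (x i) : ℝ) : ℂ) * (KM (ψ N) x).det‖ ≤ ∏ i, φ (x i) := by
    intro N n x
    rw [norm_mul, Complex.norm_real, Real.norm_eq_abs, abs_of_nonneg (hnonneg n x)]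
    exact mul_le_of_le_one_right (hnonneg n x) (KM_det h3 (ψ N) (hb N) x)
  have hJb : ∀ N n, ‖J N n‖ ≤ c ^ n := by
    intro N n
    rw [← hJ1, ← hprodint]
    exact norm_integral_le_of_norm_le (hprod n) (Filter.Eventually.of_forall (hbound N n))
  -- the limits
  have hJlim : ∀ n, Tendsto (fun N => J N n) atTop (𝓝 ((Iint n φ : ℝ) : ℂ)) := by
    intro n
    have h5 : ((Iint n φ : ℝ) : ℂ) = ∫ x : Fin n → ℝ, ((∏ i, φ (x i) : ℝ) : ℂ) *
        ((Matrix.det (Matrix.of fun i k => S (x i - x k)) : ℝ) : ℂ) := by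
      unfold Iint
      rw [← integral_complex_ofReal]
      simp only [Complex.ofReal_mul]
    rw [h5]
    simp_rw [← hJ1]
    refine tendsto_integral_of_dominated_convergence (fun x : Fin n → ℝ => ∏ i, φ (x i)) ?_
      (hprod n) (fun N => Filter.Eventually.of_forall (hbound N n)) ?_
    · intro N
      refine Continuous.aestronglyMeasurable ?_
      refine Continuous.mul ?_ (KM_cont (ψ N) n)
      exact Complex.continuous_ofReal.comp
        (continuous_finset_prod _ fun i _ => hc.comp (continuous_apply i))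
    · refine Filter.Eventually.of_forall fun x => ?_
      refine Tendsto.const_mul _ ?_
      have h6 : ((Matrix.det (Matrix.of fun i k => S (x i - x k)) : ℝ) : ℂ) =
          (Matrix.of fun i k => ((S (x i - x k) : ℝ) : ℂ)).det := by
        have h7 := RingHom.map_det Complex.ofRealHom
          (Matrix.of fun i k : Fin n => S (x i - x k))
        rw [Complex.ofRealHom_eq_coe] at h7
        rw [h7]
        rfl
      rw [h6]
      have h8 : Continuous (fun M : Matrix (Fin n) (Fin n) ℂ => M.det) :=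
        Continuous.matrix_det continuous_id
      refine (h8.tendsto _).comp ?_
      refine tendsto_pi_nhds.2 fun i => ?_
      refine tendsto_pi_nhds.2 fun k => ?_
      exact hlim (x i) (x k)
  have hIb : ∀ n, |Iint n φ| ≤ c ^ n := by
    intro n
    have h5 := (hJlim n).norm
    have h6 := le_of_tendsto' h5 (fun N => hJb N n)
    rwa [Complex.norm_real, Real.norm_eq_abs] at h6
  have hsum : Summable (fun n : ℕ => c ^ n / (n.factorial : ℝ)) := Real.summable_pow_div_factorial c
  have habs : ∀ (n : ℕ) (y : ℝ), |y| ≤ c ^ n →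
      ‖((-1 : ℝ) ^ n / (n.factorial : ℝ)) * y‖ ≤ c ^ n / (n.factorial : ℝ) := by
    intro n y hy
    have h5 : (0 : ℝ) < n.factorial := by positivity
    rw [Real.norm_eq_abs, abs_mul, abs_div, abs_pow, abs_neg, abs_one, one_pow,
      abs_of_pos h5, one_div, div_eq_mul_inv, mul_comm]
    exact mul_le_mul_of_nonneg_right hy (by positivity)
  refine ⟨Summable.of_norm_bounded hsum fun n => habs n _ (hIb n), ?_⟩
  -- the determinants as series
  have hdet : ∀ N, ((1 - A N).det).re =
      ∑' n : ℕ, ((-1 : ℝ) ^ n / (n.factorial : ℝ)) * (J N n).re := by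
    intro N
    obtain ⟨h5, h6⟩ := h4 (d N) (A N)
    rw [tsum_eq_sum (s := Finset.range (d N + 1)), h5, Complex.re_sum]
    · refine Finset.sum_congr rfl fun n _ => ?_
      have h7 : ((-1 : ℂ) ^ n / (n.factorial : ℂ)) =
          (((-1 : ℝ) ^ n / (n.factorial : ℝ) : ℝ) : ℂ) := by push_cast; rfl
      rw [h7, Complex.re_ofReal_mul]
    · intro n hn
      rw [Finset.mem_range, not_lt] at hn
      have h7 : J N n = 0 := h6 n (by omega)
      rw [h7]
      simp
  have hgoal : Tendsto (fun N => ∑' n : ℕ, ((-1 : ℝ) ^ n / (n.factorial : ℝ)) * (J N n).re) atTop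
      (𝓝 (∑' n : ℕ, ((-1 : ℝ) ^ n / (n.factorial : ℝ)) * Iint n φ)) := by
    refine tendsto_tsum_of_dominated_convergence hsum ?_ ?_
    · intro n
      refine Tendsto.const_mul _ ?_
      have h5 := (Complex.continuous_re.tendsto _).comp (hJlim n)
      rw [Complex.ofReal_re] at h5
      exact h5
    · refine Filter.Eventually.of_forall fun N n => ?_
      exact habs n _ ((Complex.abs_re_le_norm _).trans (hJb N n))
  exact hgoal.congr fun N => (hdet N).symm

end R59.SP.LimP
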